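import Mathlib

set_option autoImplicit false

/-!
# The incidence group of the complete bipartite graph on 3 + 6 vertices, Kazhdan's property (T)
-/

namespace Pool.Agent.Q104.KT

/-- Generators: the cells of an array with six rows and three columns. -/
abbrev Cell : Type := Fin 6 × Fin 3

/-- The free group on the cells. -/
abbrev F : Type := FreeGroup Cell

/-- The generator of the cell in row `i` and column `j`. -/
def x (i : Fin 6) (j : Fin 3) : F := FreeGroup.of (i, j)

/-- The relators. -/
inductive Rel : F → Prop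
  | sq (i : Fin 6) (j : Fin 3) : Rel (x i j * x i j)
  | row_comm (i : Fin 6) (j l : Fin 3) : Rel (x i j * x i l * (x i l * x i j)⁻¹)
  | col_comm (i k : Fin 6) (j : Fin 3) : Rel (x i j * x k j * (x k j * x i j)⁻¹)
  | row (i : Fin 6) : Rel (x i 0 * x i 1 * x i 2)
  | col (j : Fin 3) : Rel (x 0 j * x 1 j * x 2 j * x 3 j * x 4 j * x 5 j)

/-- The incidence group. -/
abbrev K36 : Type := PresentedGroup {r : F | Rel r}

/-- Kazhdan's property (T): every unitary representation which has almost invariant vectors has a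
nonzero invariant vector. -/
def KazhdanT (G : Type) [Group G] : Prop :=
  ∀ (H : Type) [NormedAddCommGroup H] [InnerProductSpace ℂ H] [CompleteSpace H]
    (ρ : G →* (H ≃ₗᵢ[ℂ] H)),
    (∀ (S : Finset G) (ε : ℝ), 0 < ε → ∃ v : H, ‖v‖ = 1 ∧ ∀ g ∈ S, ‖ρ g v - v‖ < ε) →
    ∃ v : H, v ≠ 0 ∧ ∀ g : G, ρ g v = v

end Pool.Agent.Q104.KT
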