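import Pool.Agent.Q104.KT.Rep

set_option autoImplicit false

/-!
# An affine action of the incidence group on the lattice of dimension four
-/

namespace Pool.Agent.Q104.KT

/-- Nine affine signed permutations of order two. -/
def act : Fin 3 → Fin 3 → Z4 → Z4
  | 0, 0, (x, y, z, w) => (1 - y, 1 - x, 1 - w, 1 - z)
  | 0, 1, (x, y, z, w) => (2 - x, -y, z, w)
  | 0, 2, (x, y, z, w) => (1 + y, x - 1, 1 - w, 1 - z)
  | 1, 0, (x, y, z, w) => (z, w, x, y)
  | 1, 1, (x, y, z, w) => (x, -y, z, -w)
  | 1, 2, (x, y, z, w) => (z, -w, x, -y)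
  | 2, 0, (x, y, z, w) => (w, z, y, x)
  | 2, 1, (x, y, z, w) => (x, -y, -z, w)
  | 2, 2, (x, y, z, w) => (w, -z, -y, x)

theorem act_act (c j : Fin 3) (p : Z4) : act c j (act c j p) = p := by
  obtain ⟨x, y, z, w⟩ := p
  fin_cases c <;> fin_cases j <;> simp [act]

theorem act_row_comm (c j l : Fin 3) (p : Z4) : act c j (act c l p) = act c l (act c j p) := by
  obtain ⟨x, y, z, w⟩ := p
  fin_cases c <;> fin_cases j <;> fin_cases l <;> simp [act] <;> omega

theorem act_col_comm (c d j : Fin 3) (p : Z4) : act c j (act d j p) = act d j (act c j p) := by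
  obtain ⟨x, y, z, w⟩ := p
  fin_cases c <;> fin_cases d <;> fin_cases j <;> simp [act] <;> omega

theorem act_row (c : Fin 3) (p : Z4) : act c 0 (act c 1 (act c 2 p)) = p := by
  obtain ⟨x, y, z, w⟩ := p
  fin_cases c <;> simp [act]
  ring

theorem N_act (c j : Fin 3) (p : Z4) : N (act c j p) ≤ N p + 2 := by
  obtain ⟨x, y, z, w⟩ := p
  fin_cases c <;> fin_cases j <;> simp [act, N] <;> omega

/-- The permutations. -/
def A (c j : Fin 3) : Equiv.Perm Z4 := ⟨act c j, act c j, act_act c j, act_act c j⟩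

theorem A_apply (c j : Fin 3) (p : Z4) : A c j p = act c j p := rfl

theorem A_sq (c j : Fin 3) : A c j * A c j = 1 := Equiv.ext (act_act c j)

theorem A_row_comm (c j l : Fin 3) : A c j * A c l = A c l * A c j :=
  Equiv.ext (act_row_comm c j l)

theorem A_col_comm (c d j : Fin 3) : A c j * A d j = A d j * A c j :=
  Equiv.ext (act_col_comm c d j)

theorem A_row (c : Fin 3) : A c 0 * A c 1 * A c 2 = 1 := Equiv.ext (act_row c)

/-- Two rows each are identified. -/
def cls : Fin 6 → Fin 3 := ![0, 0, 1, 1, 2, 2]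

/-- The homomorphism on the free group. -/
def lft : F →* Equiv.Perm Z4 := FreeGroup.lift fun c => A (cls c.1) c.2

theorem lft_x (i : Fin 6) (j : Fin 3) : lft (x i j) = A (cls i) j := FreeGroup.lift_apply_of ..

theorem lft_rel (r : F) (h : Rel r) : lft r = 1 := by
  cases h with
  | sq i j => rw [map_mul, lft_x, A_sq]
  | row_comm i j l =>
    rw [map_mul, map_inv, map_mul, map_mul, lft_x, lft_x, A_row_comm, mul_inv_cancel]
  | col_comm i k j =>
    rw [map_mul, map_inv, map_mul, map_mul, lft_x, lft_x, A_col_comm, mul_inv_cancel]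
  | row i => rw [map_mul, map_mul, lft_x, lft_x, lft_x, A_row]
  | col j =>
    simp only [map_mul, lft_x]
    show A 0 j * A 0 j * A 1 j * A 1 j * A 2 j * A 2 j = 1
    rw [A_sq, one_mul, A_sq, one_mul, A_sq]

/-- The homomorphism. -/
def hom : K36 →* Equiv.Perm Z4 :=
  PresentedGroup.toGroup (f := fun c : Cell => A (cls c.1) c.2) (fun r hr => lft_rel r hr)

theorem hom_x (i : Fin 6) (j : Fin 3) :
    hom (PresentedGroup.of (i, j)) = A (cls i) j := PresentedGroup.toGroup.of _

theorem bounded (g : K36) : ∃ c : ℕ, ∀ p, N (hom g p) ≤ N p + c := by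
  obtain ⟨w, rfl⟩ := PresentedGroup.mk_surjective _ g
  have key : ∀ w : F, ∃ c : ℕ, ∀ p, N (lft w p) ≤ N p + c := by
    intro w
    induction w using FreeGroup.induction_on with
    | C1 => exact ⟨0, fun p => by simp⟩
    | of a => exact ⟨2, fun p => N_act (cls a.1) a.2 p⟩
    | inv_of a _ =>
      refine ⟨2, fun p => ?_⟩
      have h1 : lft (FreeGroup.of a)⁻¹ = lft (FreeGroup.of a) := by
        rw [map_inv]
        exact inv_eq_of_mul_eq_one_left (A_sq (cls a.1) a.2)
      rw [h1]
      exact N_act (cls a.1) a.2 p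
    | mul u v hu hv =>
      obtain ⟨c, hc⟩ := hu
      obtain ⟨d, hd⟩ := hv
      refine ⟨c + d, fun p => ?_⟩
      have h1 := hc (lft v p)
      have h2 := hd p
      rw [map_mul]
      show N (lft u (lft v p)) ≤ _
      omega
  obtain ⟨c, hc⟩ := key w
  exact ⟨c, fun p => hc p⟩

/-- The element which acts as a translation. -/
def tr : K36 :=
  PresentedGroup.of (0, 0) * PresentedGroup.of (2, 1) * PresentedGroup.of (0, 0) *
    PresentedGroup.of (2, 1) * (PresentedGroup.of (2, 0) * PresentedGroup.of (4, 1) *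
      PresentedGroup.of (2, 0) * PresentedGroup.of (4, 1))

theorem hom_tr (p : Z4) : hom tr p = p + (2, 0, 2, 0) := by
  obtain ⟨x, y, z, w⟩ := p
  unfold tr
  simp only [map_mul, hom_x]
  show act 0 0 (act 1 1 (act 0 0 (act 1 1 (act 1 0 (act 2 1 (act 1 0 (act 2 1 (x, y, z, w)))))))) = _
  simp only [act]
  ext <;> simp <;> ring

theorem not_T : ¬ KazhdanT K36 := by
  intro h
  obtain ⟨v, hv, hv'⟩ := h (Ell Z4) ((permRep Z4).comp hom) (almost hom bounded)
  exact hv (no_invariant hom tr (2, 0, 2, 0) (by simp) hom_tr v (hv' tr))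

end Pool.Agent.Q104.KT
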